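import Pool.Agent.Helper19.HV.XS

/-!
# Project HV, module CA5: the five-term relation from the two symmetries
-/

set_option autoImplicit false

namespace Pool.Agent.Helper19.HV

noncomputable section

open PL

private theorem CA5_y {K : Type} [Field K] (y x l : K) (hx0 : x ≠ 0) (hx1 : x ≠ 1) (hlx : l ≠ x)
    (hyx : y ≠ x) (hyl : y ≠ l) :
    (1 - l * (1 - x) / (l - x)) * ((1 - x) * y / (y - x)) /
      ((1 - x) * y / (y - x) - l * (1 - x) / (l - x)) = (1 - l) * y / (y - l) := by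
  have a1 : l - x ≠ 0 := sub_ne_zero.2 hlx
  have a2 : y - x ≠ 0 := sub_ne_zero.2 hyx
  have a3 : y - l ≠ 0 := sub_ne_zero.2 hyl
  have a4 : l - y ≠ 0 := sub_ne_zero.2 hyl.symm
  have a5 : 1 - x ≠ 0 := sub_ne_zero.2 hx1.symm
  have h1 : 1 - l * (1 - x) / (l - x) = x * (l - 1) / (l - x) := by
    field_simp
    ring
  have h2 : (1 - x) * y / (y - x) - l * (1 - x) / (l - x)
      = x * (1 - x) * (l - y) / ((y - x) * (l - x)) := by
    field_simp
    ring
  rw [h1, h2, div_eq_div_iff (div_ne_zero (mul_ne_zero (mul_ne_zero hx0 a5) a4) (mul_ne_zero a2 a1)) a3]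
  field_simp
  ring

private theorem CA5_A {F : Type} [Field F] (D : F → ℚ) (hs : ∀ l, D (1 - l) = - D l)
    (hi : ∀ l, D l⁻¹ = - D l) {x l : F} (hx0 : x ≠ 0) (hx1 : x ≠ 1) (hl0 : l ≠ 0) (hl1 : l ≠ 1)
    (hlx : l ≠ x) : N5 D x l = - N5 D l x := by
  have a1 : l - x ≠ 0 := sub_ne_zero.2 hlx
  have a2 : x - l ≠ 0 := sub_ne_zero.2 hlx.symm
  have a3 : l - 1 ≠ 0 := sub_ne_zero.2 hl1
  have a4 : x - 1 ≠ 0 := sub_ne_zero.2 hx1
  have h1 : D (l / x) = - D (x / l) := by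
    rw [← hi, inv_div]
  have h2 : D ((x - l) / (x - 1)) = - D ((l - x) / (l - 1)) := by
    have e1 : D ((x - 1) / (x - l)) = - D ((x - l) / (x - 1)) := by
      rw [← hi, inv_div]
    have e2 : D ((l - 1) / (l - x)) = - D ((l - x) / (l - 1)) := by
      rw [← hi, inv_div]
    have e3 : (l - 1) / (l - x) = 1 - (x - 1) / (x - l) := by
      rw [eq_sub_iff_add_eq]
      have : (x - 1) / (x - l) = (1 - x) / (l - x) := by
        rw [div_eq_div_iff a2 a1]
        ring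
      rw [this, ← add_div]
      rw [div_eq_one_iff_eq a1]
      ring
    have e4 := hs ((x - 1) / (x - l))
    rw [← e3, e2, e1] at e4
    linarith
  have h3 : D (l * (x - 1) / (x - l)) = - D (x * (l - 1) / (l - x)) := by
    have e1 : l * (x - 1) / (x - l) = 1 - x * (l - 1) / (l - x) := by
      rw [eq_sub_iff_add_eq]
      have : l * (x - 1) / (x - l) = l * (1 - x) / (l - x) := by
        rw [div_eq_div_iff a2 a1]
        ring
      rw [this, ← add_div]
      rw [div_eq_one_iff_eq a1]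
      ring
    rw [e1, hs]
  unfold N5
  rw [h1, h2, h3]
  ring

/-- CA5. -/
theorem mCA5 {F : Type} [Field F] {Y S : RatFunc F → Prop} (hC : Crd Y S)
    (D : RatFunc F → F → ℚ) (h0 : ∀ y, Y y → D y 0 = 0)
    (hs : ∀ y, Y y → ∀ l, D y (1 - l) = - D y l) (hi : ∀ y, Y y → ∀ l, D y l⁻¹ = - D y l)
    (hI : ∀ y, Y y → ∀ x l : F, x ≠ 0 → x ≠ 1 → l ≠ 0 → l ≠ 1 → l ≠ x →
      N5 (D y) x l =
        N5 (D (RatFunc.C (1 - x) * y / (y - RatFunc.C x))) (1 - x) (l * (1 - x) / (l - x)))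
    {y : RatFunc F} (hy : Y y) : FT5 (D y) := by
  have hY : ∀ z, Y z → ∀ l : F, l ≠ 0 → l ≠ 1 → Y (RatFunc.C (1 - l) * z / (z - RatFunc.C l)) := by
    intro z hz l hl0 hl1
    have h := hC.mob z hz (1 - l) 0 1 (-l) (by
      have : (1 - l) * -l - 0 * 1 = -((1 - l) * l) := by ring
      rw [this]
      exact neg_ne_zero.2 (mul_ne_zero (sub_ne_zero.2 hl1.symm) hl0))
    have e : (RatFunc.C (1 - l) * z + RatFunc.C 0) / (RatFunc.C 1 * z + RatFunc.C (-l))
        = RatFunc.C (1 - l) * z / (z - RatFunc.C l) := by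
      rw [map_zero, add_zero, map_one, one_mul, map_neg, ← sub_eq_add_neg]
    rw [← e]
    exact h
  have hA : ∀ z, Y z → ∀ x l : F, x ≠ 0 → x ≠ 1 → l ≠ 0 → l ≠ 1 → l ≠ x →
      N5 (D z) x l = - N5 (D z) l x := fun z hz x l hx0 hx1 hl0 hl1 hlx =>
    CA5_A (D z) (hs z hz) (hi z hz) hx0 hx1 hl0 hl1 hlx
  refine ⟨h0 y hy, hs y hy, hi y hy, ?_⟩
  intro x l hx0 hx1 hl0 hl1 hxl
  have hlx : l ≠ x := hxl.symm
  have a1 : l - x ≠ 0 := sub_ne_zero.2 hlx
  have a2 : x - l ≠ 0 := sub_ne_zero.2 hxl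
  have a3 : 1 - l ≠ 0 := sub_ne_zero.2 hl1.symm
  have a4 : 1 - x ≠ 0 := sub_ne_zero.2 hx1.symm
  have b3 : 1 - l ≠ 1 := fun h => hl0 (by linear_combination -h)
  have b4 : 1 - x ≠ 1 := fun h => hx0 (by linear_combination -h)
  -- the two points
  obtain ⟨s, hsd⟩ : ∃ s, s = x * (1 - l) / (x - l) := ⟨_, rfl⟩
  obtain ⟨r, hrd⟩ : ∃ r, r = l * (1 - x) / (l - x) := ⟨_, rfl⟩
  have hs' : s * (x - l) = x * (1 - l) := by
    rw [hsd, div_mul_cancel₀ _ a2]
  have hr' : r * (l - x) = l * (1 - x) := by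
    rw [hrd, div_mul_cancel₀ _ a1]
  have hs0 : s ≠ 0 := by
    rw [hsd]
    exact div_ne_zero (mul_ne_zero hx0 a3) a2
  have hr0 : r ≠ 0 := by
    rw [hrd]
    exact div_ne_zero (mul_ne_zero hl0 a4) a1
  have hs1 : s ≠ 1 := by
    intro h
    rw [h, one_mul] at hs'
    exact mul_ne_zero hl0 a4 (by linear_combination -hs')
  have hr1 : r ≠ 1 := by
    intro h
    rw [h, one_mul] at hr'
    exact mul_ne_zero hx0 a3 (by linear_combination -hr')
  have hsl : s ≠ 1 - l := by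
    intro h
    rw [h] at hs'
    exact mul_ne_zero hl0 a3 (by linear_combination -hs')
  have hrx : r ≠ 1 - x := by
    intro h
    rw [h] at hr'
    exact mul_ne_zero hx0 a4 (by linear_combination -hr')
  have hrs : 1 - r = s := by
    have : (1 - r) * (l - x) = s * (l - x) := by linear_combination -hr' + hs'
    exact mul_right_cancel₀ a1 this
  -- first way
  have f1 : N5 (D y) x l = - N5 (D y) l x := hA y hy x l hx0 hx1 hl0 hl1 hlx
  have f2 := hI y hy l x hl0 hl1 hx0 hx1 hxl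
  rw [← hsd] at f2
  have f3 := hA _ (hY y hy l hl0 hl1) (1 - l) s a3 b3 hs0 hs1 hsl
  -- second way
  have g1 := hI y hy x l hx0 hx1 hl0 hl1 hlx
  rw [← hrd] at g1
  have hY2 := hY y hy x hx0 hx1
  have g2 := hA _ hY2 (1 - x) r a4 b4 hr0 hr1 hrx
  have g3 := hI _ hY2 r (1 - x) hr0 hr1 a4 b4 hrx.symm
  have e1 : (1 - x) * (1 - r) / ((1 - x) - r) = 1 - l := by
    have h1 : (1 - x) - r ≠ 0 := sub_ne_zero.2 hrx.symm
    rw [div_eq_iff h1]
    have h2 : ((1 - x) * (1 - r)) * (l - x) = ((1 - l) * ((1 - x) - r)) * (l - x) := by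
      linear_combination (-(1 - x) + (1 - l)) * hr'
    exact mul_right_cancel₀ a1 h2
  have e2 : RatFunc.C (1 - r) * (RatFunc.C (1 - x) * y / (y - RatFunc.C x)) /
      (RatFunc.C (1 - x) * y / (y - RatFunc.C x) - RatFunc.C r)
      = RatFunc.C (1 - l) * y / (y - RatFunc.C l) := by
    have hCi : Function.Injective (RatFunc.C : F →+* RatFunc F) := RatFunc.C_injective
    have h := CA5_y (K := RatFunc F) y (RatFunc.C x) (RatFunc.C l)
      (fun h => hx0 (hCi (by rw [h, map_zero]))) (fun h => hx1 (hCi (by rw [h, map_one])))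
      (fun h => hlx (hCi h)) (hC.nc y hy x) (hC.nc y hy l)
    rw [hrd]
    simp only [map_sub, map_one, map_mul, map_div₀]
    exact h
  rw [e1, e2, hrs] at g3
  have hfin : N5 (D y) x l = 0 := by linarith
  unfold N5 at hfin
  linarith

end

end Pool.Agent.Helper19.HV
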