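import Pool.Agent.Helper19.HV.XS

/-!
# Project HV, module SPN: alternating in all three variables
-/

set_option autoImplicit false

namespace Pool.Agent.Helper19.HV

noncomputable section

open PL

private theorem SPN_span {F : Type} [Field F]
    {cV : V F →ₗ[ℚ] V (RatFunc F)} {lc : V (RatFunc F) →ₗ[ℚ] V F}
    {od : V (RatFunc F) →ₗ[ℚ] (F →₀ ℚ)} (hs : Spl cV lc od) :
    Submodule.span ℚ ((Set.range fun c : F => lg (RatFunc.C c)) ∪ Set.range (E : F → V (RatFunc F)))
      = ⊤ := by
  rw [eq_top_iff]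
  intro v _
  rw [hs.dec v]
  refine Submodule.add_mem _ ?_ ?_
  · have h1 : lc v ∈ Submodule.span ℚ (Set.range (lg : F → V F)) := by
      rw [span_lg]
      trivial
    have h2 : cV (lc v) ∈ (Submodule.span ℚ (Set.range (lg : F → V F))).map cV :=
      ⟨lc v, h1, rfl⟩
    rw [Submodule.map_span] at h2
    refine Submodule.span_mono ?_ h2
    rintro _ ⟨_, ⟨c, rfl⟩, rfl⟩
    exact Or.inl ⟨c, (hs.cV_lg c).symm⟩
  · have h3 : Finsupp.linearCombination ℚ (E : F → V (RatFunc F)) (od v) ∈
        Submodule.span ℚ (Set.range (E : F → V (RatFunc F))) := by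
      rw [← Finsupp.range_linearCombination]
      exact ⟨od v, rfl⟩
    exact Submodule.span_mono Set.subset_union_right h3

/-- SPN. -/
theorem mSPN {F N : Type} [Field F] [AddCommGroup N] [Module ℚ N]
    {cV : V F →ₗ[ℚ] V (RatFunc F)} {lc : V (RatFunc F) →ₗ[ℚ] V F}
    {od : V (RatFunc F) →ₗ[ℚ] (F →₀ ℚ)} (hs : Spl cV lc od)
    (T : V (RatFunc F) →ₗ[ℚ] V (RatFunc F) →ₗ[ℚ] V (RatFunc F) →ₗ[ℚ] N)
    (h2 : ∀ v w, T v v w = 0) (hc1 : ∀ (c : F) v w, T (lg (RatFunc.C c)) v w = 0)
    (hc3 : ∀ (c : F) v w, T v w (lg (RatFunc.C c)) = 0)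
    (hx : ∀ x : P1 (RatFunc F), T (cl1 x) (cl x) (cl x) = 0) : Al3 T := by
  have h21 : ∀ v w z, T v w z = - T w v z := by
    intro v w z
    have h := h2 (v + w) z
    simp only [map_add, LinearMap.add_apply, h2, zero_add, add_zero] at h
    exact eq_neg_of_add_eq_zero_left (by rw [add_comm]; exact h)
  have hc2 : ∀ (c : F) v w, T v (lg (RatFunc.C c)) w = 0 := by
    intro c v w
    rw [h21, hc1, neg_zero]
  have exp1 : ∀ k k' A P : V (RatFunc F), (∀ v w, T k v w = 0) → (∀ v w, T v k' w = 0) →
      (∀ v w, T v w k' = 0) → T (P - k) (A - k') (A - k') = T P A A := by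
    intro k k' A P a1 a2 a3
    simp only [map_sub, LinearMap.sub_apply, a1, a2, a3, sub_zero]
  have exp2 : ∀ k k' A B P : V (RatFunc F), (∀ v w, T k v w = 0) → (∀ v w, T v k' w = 0) →
      (∀ v w, T v w k' = 0) → T (k + P) (k' + (A - B)) (k' + (A - B)) =
        T P A A - T P A B - (T P B A - T P B B) := by
    intro k k' A B P a1 a2 a3
    simp only [map_sub, map_add, LinearMap.sub_apply, LinearMap.add_apply, a1, a2, a3, zero_add,
      sub_zero, add_zero]
    abel
  have hb : ∀ p a, T (E p) (E a) (E a) = 0 := by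
    intro p a
    by_cases h : p = a
    · rw [h]
      exact h2 _ _
    · have h1 := hx (x1 a p)
      rw [cl_x1 h, cl1_x1 h, exp1 _ _ _ _ (hc1 _) (hc2 _) (hc3 _)] at h1
      exact h1
  have hcc : ∀ a b, T (E b) (E a) (E b) = 0 := by
    intro a b
    by_cases h : a = b
    · rw [h]
      exact h2 _ _
    · have h1 := hx (x2 a b 1)
      rw [cl_x2 one_ne_zero, cl1_x2_one h, sub_eq_add_neg, exp2 _ _ _ _ _ (hc1 _) (hc2 _) (hc3 _)] at h1
      simp only [map_neg, LinearMap.neg_apply, h2, hb, neg_zero, zero_sub, sub_zero, neg_neg] at h1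
      exact h1
  have hd : ∀ p a b, T (E p) (E a) (E b) + T (E p) (E b) (E a) = 0 := by
    intro p a b
    by_cases hab : a = b
    · rw [hab, hb, add_zero]
    by_cases hpa : p = a
    · rw [hpa, h2, hcc, add_zero]
    by_cases hpb : p = b
    · rw [hpb, h2, hcc, add_zero]
    have h1 := hx (x2 a b ((p - b) / (p - a)))
    rw [cl_x2 (div_ne_zero (sub_ne_zero.2 hpb) (sub_ne_zero.2 hpa)), cl1_x2 hab hpa,
      exp2 _ _ _ _ _ (hc1 _) (hc2 _) (hc3 _)] at h1
    have e1 : ∀ v w, T (E p - E b) v w = T (E p) v w - T (E b) v w := by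
      intro v w
      simp only [map_sub, LinearMap.sub_apply]
    rw [e1, e1, e1, e1, hb, hb, hb, hcc, h2, h2] at h1
    have h3 : T (E p) (E a) (E b) + T (E p) (E b) (E a)
        = -(0 - 0 - (T (E p) (E a) (E b) - 0) - (T (E p) (E b) (E a) - 0 - (0 - 0))) := by abel
    rw [h3, h1, neg_zero]
  have hspan := SPN_span hs
  have key : ∀ w v v', T w v v' + T w v' v = 0 := by
    intro w
    have hw : w ∈ Submodule.span ℚ ((Set.range fun c : F => lg (RatFunc.C c)) ∪
        Set.range (E : F → V (RatFunc F))) := by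
      rw [hspan]
      trivial
    induction hw using Submodule.span_induction with
    | mem w hw =>
      have h3 : T w + (T w).flip = 0 := by
        refine LinearMap.ext_on hspan ?_
        intro v hv
        refine LinearMap.ext_on hspan ?_
        intro v' hv'
        simp only [LinearMap.add_apply, LinearMap.flip_apply, LinearMap.zero_apply]
        rcases hw with ⟨c, rfl⟩ | ⟨p, rfl⟩
        · simp only [hc1, add_zero]
        rcases hv with ⟨c, rfl⟩ | ⟨a, rfl⟩
        · simp only [hc2, hc3, add_zero]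
        rcases hv' with ⟨c, rfl⟩ | ⟨b, rfl⟩
        · simp only [hc2, hc3, add_zero]
        exact hd p a b
      intro v v'
      have h4 := congrArg (fun f => f v v') h3
      simpa only [LinearMap.add_apply, LinearMap.flip_apply, LinearMap.zero_apply] using h4
    | zero =>
      intro v v'
      simp only [map_zero, LinearMap.zero_apply, add_zero]
    | add x y _ _ hx' hy' =>
      intro v v'
      simp only [map_add, LinearMap.add_apply]
      have := congrArg₂ (fun a b => a + b) (hx' v v') (hy' v v')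
      simp only [add_zero] at this
      rw [← this]
      abel
    | smul c x _ hx' =>
      intro v v'
      simp only [map_smul, LinearMap.smul_apply]
      rw [← smul_add, hx', smul_zero]
  refine ⟨h2, ?_⟩
  intro w v
  have h5 := key w v v
  rw [← two_smul ℚ] at h5
  rcases smul_eq_zero.1 h5 with h6 | h6
  · norm_num at h6
  · exact h6

end

end Pool.Agent.Helper19.HV
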